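import Pool.Agent.HMT.Stmts

/-!
Row TWO of the table `hmt`: a nonempty set in which every vertex has two neighbours contains a
whole leg.
-/

open scoped Classical

namespace Pool.Agent.HMT.H62

variable {q T : ℕ} {ε : ℤˣ} {Z : Finset (cf q T).R}

/-- the leg vertices -/
noncomputable abbrev leg (g : {g : Equiv.Perm (cf q T).J // Equiv.Perm.sign g = ε}) (i : Fin q → Bool)
    (a : Fin (T + 1)) : (cf q T).Vert ε := Sum.inl (g, ⟨some (i, a), 0⟩)

theorem adj_iff (v w : (cf q T).Vert ε) :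
    ((cf q T).Gr ε Z).Adj v w ↔ v ≠ w ∧ ((cf q T).rel ε Z v w ∨ (cf q T).rel ε Z w v) :=
  SimpleGraph.fromRel_adj _ _ _

theorem sadj_iff (x y : XX q T) :
    (cf q T).S.Adj x y ↔ x ≠ y ∧ (srel q T x y ∨ srel q T y x) :=
  SimpleGraph.fromRel_adj _ _ _

theorem adj_tree {r : (cf q T).R} {w : (cf q T).Vert ε}
    (h : ((cf q T).Gr ε Z).Adj (Sum.inr (Sum.inr r)) w) :
    w = Sum.inr ((cf q T).par r) ∨
      ∃ r', w = Sum.inr (Sum.inr r') ∧ (cf q T).par r' = Sum.inr r := by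
  obtain ⟨-, h | h⟩ := (adj_iff _ _).1 h
  · rcases w with ⟨g, x⟩ | j | r'
    · exact absurd h id
    · exact absurd h id
    · exact Or.inr ⟨r', rfl, h.1.symm⟩
  · rcases w with ⟨g, x⟩ | j | r'
    · exact absurd h id
    · exact Or.inl (congrArg Sum.inr h.1)
    · exact Or.inl (congrArg Sum.inr h.1)

theorem sadj_leaf {k : KX q T} {c : Fin (kx q T k + 1)} (hc : c ≠ 0) {y : XX q T}
    (h : (cf q T).S.Adj (⟨k, c⟩ : XX q T) y) : y = ⟨k, 0⟩ := by
  have hc' : c.val ≠ 0 := fun h0 => hc (Fin.ext h0)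
  obtain ⟨-, h | h⟩ := (sadj_iff _ _).1 h
  · rcases h with ⟨-, h1, -⟩ | ⟨h1, -, -⟩ <;> exact absurd h1 hc'
  · rcases h with ⟨h1, h2, -⟩ | ⟨-, h1, -⟩
    · obtain ⟨k', c'⟩ := y
      obtain rfl : k' = k := h1
      have : c' = 0 := Fin.ext h2
      rw [this]
    · exact absurd h1 hc'

theorem adj_leaf {g : {g : Equiv.Perm (cf q T).J // Equiv.Perm.sign g = ε}} {k : KX q T}
    {c : Fin (kx q T k + 1)} (hc : c ≠ 0) {w : (cf q T).Vert ε}
    (h : ((cf q T).Gr ε Z).Adj (Sum.inl (g, (⟨k, c⟩ : XX q T))) w) :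
    w = Sum.inl (g, (⟨k, 0⟩ : XX q T)) := by
  obtain ⟨-, h | h⟩ := (adj_iff _ _).1 h
  · rcases w with ⟨g', x⟩ | j | r'
    · obtain ⟨rfl, h2⟩ := h
      exact congrArg (fun y => Sum.inl (g, y)) (sadj_leaf hc h2)
    · have h1 : (⟨k, c⟩ : XX q T) = ⟨some (g.1.symm j, Fin.last T), 0⟩ := h
      obtain ⟨rfl, h2⟩ := Sigma.mk.inj h1
      exact absurd (eq_of_heq h2) hc
    · exact absurd h id
  · rcases w with ⟨g', x⟩ | j | r'
    · obtain ⟨rfl, h2⟩ := h
      exact congrArg (fun y => Sum.inl (g', y)) (sadj_leaf hc h2.symm)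
    · exact absurd h id
    · exact absurd h id

theorem sadj_leg {i : Fin q → Bool} {a : Fin (T + 1)} {y : XX q T}
    (h : (cf q T).S.Adj (⟨some (i, a), 0⟩ : XX q T) y) :
    (∃ k c, c ≠ 0 ∧ y = ⟨k, c⟩) ∨ (∃ b : Fin (T + 1), b.val = a.val + 1 ∧ y = ⟨some (i, b), 0⟩) ∨
      (a.val = 0 ∧ y = ⟨none, 0⟩) ∨
      ∃ b : Fin (T + 1), a.val = b.val + 1 ∧ y = ⟨some (i, b), 0⟩ := by
  obtain ⟨k, c⟩ := y
  by_cases hc : c = 0
  swap
  · exact Or.inl ⟨k, c, hc, rfl⟩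
  subst hc
  obtain ⟨-, h | h⟩ := (sadj_iff _ _).1 h
  · rcases h with ⟨-, -, h1⟩ | ⟨-, -, ⟨h1, -⟩ | ⟨i', a', b', h1, h2, h3⟩⟩
    · exact absurd rfl h1
    · exact absurd h1 (by simp)
    · simp only [Option.some.injEq, Prod.mk.injEq] at h1 h2
      obtain ⟨rfl, rfl⟩ := h1
      subst h2
      exact Or.inr (Or.inl ⟨b', h3, rfl⟩)
  · rcases h with ⟨-, -, h1⟩ | ⟨-, -, ⟨h1, i', h2⟩ | ⟨i', a', b', h1, h2, h3⟩⟩
    · exact absurd rfl h1
    · simp only at h1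
      subst h1
      simp only [Option.some.injEq, Prod.mk.injEq] at h2
      refine Or.inr (Or.inr (Or.inl ⟨?_, rfl⟩))
      rw [h2.2]
      rfl
    · simp only [Option.some.injEq, Prod.mk.injEq] at h2
      simp only at h1
      obtain ⟨rfl, rfl⟩ := h2
      subst h1
      exact Or.inr (Or.inr (Or.inr ⟨a', h3, rfl⟩))

theorem adj_leg {g : {g : Equiv.Perm (cf q T).J // Equiv.Perm.sign g = ε}} {i : Fin q → Bool}
    {a : Fin (T + 1)} {w : (cf q T).Vert ε} (h : ((cf q T).Gr ε Z).Adj (leg g i a) w) :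
    (∃ k c, c ≠ 0 ∧ w = Sum.inl (g, (⟨k, c⟩ : XX q T))) ∨
      (∃ b : Fin (T + 1), b.val = a.val + 1 ∧ w = leg g i b) ∨
      (a.val = T ∧ w = Sum.inr (Sum.inl (g.1 i))) ∨
      (a.val = 0 ∧ w = Sum.inl (g, (⟨none, 0⟩ : XX q T))) ∨
      ∃ b : Fin (T + 1), a.val = b.val + 1 ∧ w = leg g i b := by
  have key : ∀ y : XX q T, (cf q T).S.Adj (⟨some (i, a), 0⟩ : XX q T) y →
      (∃ k c, c ≠ 0 ∧ (Sum.inl (g, y) : (cf q T).Vert ε) = Sum.inl (g, (⟨k, c⟩ : XX q T))) ∨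
      (∃ b : Fin (T + 1), b.val = a.val + 1 ∧ (Sum.inl (g, y) : (cf q T).Vert ε) = leg g i b) ∨
      (a.val = T ∧ (Sum.inl (g, y) : (cf q T).Vert ε) = Sum.inr (Sum.inl (g.1 i))) ∨
      (a.val = 0 ∧ (Sum.inl (g, y) : (cf q T).Vert ε) = Sum.inl (g, (⟨none, 0⟩ : XX q T))) ∨
      ∃ b : Fin (T + 1), a.val = b.val + 1 ∧ (Sum.inl (g, y) : (cf q T).Vert ε) = leg g i b := by
    intro y hy
    rcases sadj_leg hy with ⟨k, c, hc, rfl⟩ | ⟨b, hb, rfl⟩ | ⟨h0, rfl⟩ | ⟨b, hb, rfl⟩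
    · exact Or.inl ⟨k, c, hc, rfl⟩
    · exact Or.inr (Or.inl ⟨b, hb, rfl⟩)
    · exact Or.inr (Or.inr (Or.inr (Or.inl ⟨h0, rfl⟩)))
    · exact Or.inr (Or.inr (Or.inr (Or.inr ⟨b, hb, rfl⟩)))
  obtain ⟨-, h | h⟩ := (adj_iff _ _).1 h
  · rcases w with ⟨g', x⟩ | j | r'
    · obtain ⟨rfl, h2⟩ := h
      exact key x h2
    · have h1 : (⟨some (i, a), 0⟩ : XX q T) = ⟨some (g.1.symm j, Fin.last T), 0⟩ := h
      have h2 := (Sigma.mk.inj h1).1
      simp only [Option.some.injEq, Prod.mk.injEq] at h2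
      refine Or.inr (Or.inr (Or.inl ⟨by rw [h2.2]; rfl, ?_⟩))
      have h3 : j = g.1 i := by
        rw [h2.1]
        exact (Equiv.apply_symm_apply _ _).symm
      rw [h3]
    · exact absurd h id
  · rcases w with ⟨g', x⟩ | j | r'
    · obtain ⟨rfl, h2⟩ := h
      exact key x h2.symm
    · exact absurd h id
    · exact absurd h id

theorem sadj_centre {y : XX q T} (h : (cf q T).S.Adj (⟨none, 0⟩ : XX q T) y) :
    (∃ k c, c ≠ 0 ∧ y = ⟨k, c⟩) ∨ ∃ (i : Fin q → Bool) (a : Fin (T + 1)), y = ⟨some (i, a), 0⟩ := by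
  obtain ⟨k, c⟩ := y
  by_cases hc : c = 0
  swap
  · exact Or.inl ⟨k, c, hc, rfl⟩
  subst hc
  rcases k with _ | ⟨i, a⟩
  · exact absurd rfl h.ne
  · exact Or.inr ⟨i, a, rfl⟩

theorem adj_centre {g : {g : Equiv.Perm (cf q T).J // Equiv.Perm.sign g = ε}}
    {w : (cf q T).Vert ε} (h : ((cf q T).Gr ε Z).Adj (Sum.inl (g, (⟨none, 0⟩ : XX q T))) w) :
    (∃ k c, c ≠ 0 ∧ w = Sum.inl (g, (⟨k, c⟩ : XX q T))) ∨
      ∃ (i : Fin q → Bool) (a : Fin (T + 1)), w = leg g i a := by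
  have key : ∀ y : XX q T, (cf q T).S.Adj (⟨none, 0⟩ : XX q T) y →
      (∃ k c, c ≠ 0 ∧ (Sum.inl (g, y) : (cf q T).Vert ε) = Sum.inl (g, (⟨k, c⟩ : XX q T))) ∨
      ∃ (i : Fin q → Bool) (a : Fin (T + 1)), (Sum.inl (g, y) : (cf q T).Vert ε) = leg g i a := by
    intro y hy
    rcases sadj_centre hy with ⟨k, c, hc, rfl⟩ | ⟨i, a, rfl⟩
    · exact Or.inl ⟨k, c, hc, rfl⟩
    · exact Or.inr ⟨i, a, rfl⟩
  obtain ⟨-, h | h⟩ := (adj_iff _ _).1 h
  · rcases w with ⟨g', x⟩ | j | r'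
    · obtain ⟨rfl, h2⟩ := h
      exact key x h2
    · have h1 : (⟨none, 0⟩ : XX q T) = ⟨some (g.1.symm j, Fin.last T), 0⟩ := h
      have h2 := (Sigma.mk.inj h1).1
      exact absurd h2 (by simp)
    · exact absurd h id
  · rcases w with ⟨g', x⟩ | j | r'
    · obtain ⟨rfl, h2⟩ := h
      exact key x h2.symm
    · exact absurd h id
    · exact absurd h id

theorem adj_hub {j : (cf q T).J} {w : (cf q T).Vert ε}
    (h : ((cf q T).Gr ε Z).Adj (Sum.inr (Sum.inl j)) w) :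
    (∃ r, w = Sum.inr (Sum.inr r)) ∨
      ∃ (g : {g : Equiv.Perm (cf q T).J // Equiv.Perm.sign g = ε}) (i : Fin q → Bool)
        (a : Fin (T + 1)), w = leg g i a := by
  obtain ⟨-, h | h⟩ := (adj_iff _ _).1 h
  · rcases w with ⟨g, x⟩ | j' | r'
    · exact absurd h id
    · exact absurd h id
    · exact Or.inl ⟨r', rfl⟩
  · rcases w with ⟨g, x⟩ | j' | r'
    · have h1 : x = (⟨some (g.1.symm j, Fin.last T), 0⟩ : XX q T) := h
      exact Or.inr ⟨g, g.1.symm j, Fin.last T, by rw [h1]⟩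
    · exact absurd h id
    · exact absurd h id

theorem two : TwoStmt := by
  intro q T ε Z U hne hU
  -- no tree vertex
  have h1 : ∀ r : (cf q T).R, (Sum.inr (Sum.inr r) : (cf q T).Vert ε) ∉ U := by
    by_contra hcon
    push Not at hcon
    obtain ⟨r₀, hr₀⟩ := hcon
    obtain ⟨r, hr, hmax⟩ := Finset.exists_max_image
      (Finset.univ.filter fun r : (cf q T).R => (Sum.inr (Sum.inr r) : (cf q T).Vert ε) ∈ U)
      (cf q T).dep ⟨r₀, by simpa using hr₀⟩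
    have hrU : (Sum.inr (Sum.inr r) : (cf q T).Vert ε) ∈ U := by simpa using hr
    obtain ⟨a, haU, b, hbU, hab, ha, hb⟩ := hU _ hrU
    have hone : ∀ w ∈ U, ((cf q T).Gr ε Z).Adj (Sum.inr (Sum.inr r)) w →
        w = Sum.inr ((cf q T).par r) := by
      intro w hwU hw
      rcases adj_tree hw with h | ⟨r', rfl, hr'⟩
      · exact h
      · exfalso
        have h2 := hmax r' (by simpa using hwU)
        have h3 := (cf q T).hdep r' r hr'
        omega
    exact hab ((hone a haU ha).trans (hone b hbU hb).symm)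
  -- no leaf of a spider
  have h2 : ∀ (g : {g : Equiv.Perm (cf q T).J // Equiv.Perm.sign g = ε}) (k : KX q T)
      (c : Fin (kx q T k + 1)), c ≠ 0 → (Sum.inl (g, (⟨k, c⟩ : XX q T)) : (cf q T).Vert ε) ∉ U := by
    intro g k c hc hcU
    obtain ⟨a, haU, b, hbU, hab, ha, hb⟩ := hU _ hcU
    exact hab ((adj_leaf hc ha).trans (adj_leaf hc hb).symm)
  -- steps along a leg
  have hup : ∀ (g : {g : Equiv.Perm (cf q T).J // Equiv.Perm.sign g = ε}) (i : Fin q → Bool)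
      (a b : Fin (T + 1)), b.val = a.val + 1 → (leg g i a : (cf q T).Vert ε) ∈ U →
      (leg g i b : (cf q T).Vert ε) ∈ U := by
    intro g i a b hb haU
    obtain ⟨x, hxU, y, hyU, hxy, hx, hy⟩ := hU _ haU
    by_contra hbU
    have hdown : ∀ w ∈ U, ((cf q T).Gr ε Z).Adj (leg g i a) w →
        (a.val = 0 ∧ w = Sum.inl (g, (⟨none, 0⟩ : XX q T))) ∨
        ∃ b : Fin (T + 1), a.val = b.val + 1 ∧ w = leg g i b := by
      intro w hwU hw
      rcases adj_leg hw with ⟨k, c, hc, rfl⟩ | ⟨b', hb', rfl⟩ | ⟨ha, -⟩ | h | h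
      · exact absurd hwU (h2 g k c hc)
      · have : b' = b := Fin.ext (by omega)
        subst this
        exact absurd hwU hbU
      · have := b.isLt
        omega
      · exact Or.inl h
      · exact Or.inr h
    rcases hdown x hxU hx with ⟨h3, rfl⟩ | ⟨b1, h3, rfl⟩ <;>
      rcases hdown y hyU hy with ⟨h4, rfl⟩ | ⟨b2, h4, rfl⟩
    · exact hxy rfl
    · omega
    · omega
    · have : b1 = b2 := Fin.ext (by omega)
      subst this
      exact hxy rfl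
  have hdn : ∀ (g : {g : Equiv.Perm (cf q T).J // Equiv.Perm.sign g = ε}) (i : Fin q → Bool)
      (a b : Fin (T + 1)), a.val = b.val + 1 → (leg g i a : (cf q T).Vert ε) ∈ U →
      (leg g i b : (cf q T).Vert ε) ∈ U := by
    intro g i a b hb haU
    obtain ⟨x, hxU, y, hyU, hxy, hx, hy⟩ := hU _ haU
    by_contra hbU
    have hupw : ∀ w ∈ U, ((cf q T).Gr ε Z).Adj (leg g i a) w →
        (a.val = T ∧ w = Sum.inr (Sum.inl (g.1 i))) ∨
        ∃ b : Fin (T + 1), b.val = a.val + 1 ∧ w = leg g i b := by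
      intro w hwU hw
      rcases adj_leg hw with ⟨k, c, hc, rfl⟩ | h | h | ⟨ha, -⟩ | ⟨b', hb', rfl⟩
      · exact absurd hwU (h2 g k c hc)
      · exact Or.inr h
      · exact Or.inl h
      · omega
      · have : b' = b := Fin.ext (by omega)
        subst this
        exact absurd hwU hbU
    rcases hupw x hxU hx with ⟨h3, rfl⟩ | ⟨b1, h3, rfl⟩ <;>
      rcases hupw y hyU hy with ⟨h4, rfl⟩ | ⟨b2, h4, rfl⟩
    · exact hxy rfl
    · have := b2.isLt
      omega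
    · have := b1.isLt
      omega
    · have : b1 = b2 := Fin.ext (by omega)
      subst this
      exact hxy rfl
  -- some leg vertex
  have h3 : ∃ (g : {g : Equiv.Perm (cf q T).J // Equiv.Perm.sign g = ε}) (i : Fin q → Bool)
      (a : Fin (T + 1)), (leg g i a : (cf q T).Vert ε) ∈ U := by
    obtain ⟨w, hw⟩ := hne
    rcases w with ⟨g, k, c⟩ | j | r
    · by_cases hc : c = 0
      · subst hc
        rcases k with _ | ⟨i, a⟩
        · obtain ⟨x, hxU, y, hyU, hxy, hx, hy⟩ := hU _ hw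
          rcases adj_centre hx with ⟨k, c, hc, rfl⟩ | ⟨i, a, rfl⟩
          · exact absurd hxU (h2 g k c hc)
          · exact ⟨g, i, a, hxU⟩
        · exact ⟨g, i, a, hw⟩
      · exact absurd hw (h2 g k c hc)
    · obtain ⟨x, hxU, y, hyU, hxy, hx, hy⟩ := hU _ hw
      rcases adj_hub hx with ⟨r, rfl⟩ | ⟨g, i, a, rfl⟩
      · exact absurd hxU (h1 r)
      · exact ⟨g, i, a, hxU⟩
    · exact absurd hw (h1 r)
  obtain ⟨g, i, a, ha⟩ := h3
  refine ⟨g, i, ?_⟩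
  -- go down to 0, then up
  have h0 : ∀ n : ℕ, ∀ b : Fin (T + 1), b.val = n → (leg g i b : (cf q T).Vert ε) ∈ U →
      (leg g i 0 : (cf q T).Vert ε) ∈ U := by
    intro n
    induction n with
    | zero =>
      intro b hb hbU
      have : b = 0 := Fin.ext hb
      rwa [this] at hbU
    | succ n ih =>
      intro b hb hbU
      have hlt : n < T + 1 := by have := b.isLt; omega
      exact ih ⟨n, hlt⟩ rfl (hdn g i b ⟨n, hlt⟩ hb hbU)
  have h00 := h0 a.val a rfl ha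
  have h4 : ∀ n : ℕ, ∀ hn : n < T + 1, (leg g i ⟨n, hn⟩ : (cf q T).Vert ε) ∈ U := by
    intro n
    induction n with
    | zero => intro hn; exact h00
    | succ n ih =>
      intro hn
      exact hup g i ⟨n, by omega⟩ ⟨n + 1, hn⟩ rfl (ih (by omega))
  intro b
  exact h4 b.val b.isLt

end Pool.Agent.HMT.H62
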